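import Mathlib

/-!
# Imaginary quadratic fields: CM types, and the subfields of a number field
-/

set_option autoImplicit false

namespace Pool.Agent.N49.HX

open Module NumberField

theorem sq_im {z : ℂ} {d : ℚ} (hd : 0 < d) (hz : z * z = -(d : ℂ)) : z.im ≠ 0 := by
  intro h
  have h1 := congrArg Complex.re hz
  simp only [Complex.mul_re, h, mul_zero, sub_zero, Complex.neg_re, Complex.ratCast_re] at h1
  have h2 : (0 : ℝ) < d := by exact_mod_cast hd
  nlinarith [mul_self_nonneg z.re]

variable {K : Type} [Field K] [NumberField K]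

theorem emb_sq {d : ℚ} {a : K} (ha : a * a = -(d : K)) (φ : K →+* ℂ) :
    φ a * φ a = -(d : ℂ) := by
  rw [← map_mul, ha, map_neg, map_ratCast]

theorem quad_cmtype {d : ℚ} (hd : 0 < d) {a : K} (ha : a * a = -(d : K)) :
    ∃ Φ : Set (K →+* ℂ), ∀ φ : K →+* ℂ, φ ∈ Φ ↔ ComplexEmbedding.conjugate φ ∉ Φ := by
  refine ⟨{φ | 0 < (φ a).im}, fun φ => ?_⟩
  have h := sq_im hd (emb_sq ha φ)
  change 0 < (φ a).im ↔ ¬ (0 < (ComplexEmbedding.conjugate φ a).im)
  rw [ComplexEmbedding.conjugate_coe_eq, Complex.conj_im, not_lt]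
  constructor
  · intro h1
    linarith
  · intro h1
    exact lt_of_le_of_ne (by linarith) (Ne.symm h)

theorem quad_cm (hK : finrank ℚ K = 2) {d : ℚ} (hd : 0 < d) {a : K} (ha : a * a = -(d : K)) :
    IsCMField K := by
  haveI : IsTotallyComplex K := by
    refine ⟨fun v => ?_⟩
    rw [← InfinitePlace.not_isReal_iff_isComplex]
    rintro ⟨φ, hφ, -⟩
    have h1 := sq_im hd (emb_sq ha φ)
    have h2 : ComplexEmbedding.conjugate φ a = φ a := by rw [ComplexEmbedding.isReal_iff.mp hφ]
    rw [ComplexEmbedding.conjugate_coe_eq] at h2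
    exact h1 (Complex.conj_eq_iff_im.mp h2)
  haveI : Algebra.IsQuadraticExtension ℚ K := ⟨hK⟩
  exact IsCMField.ofCMExtension ℚ K

theorem finrank_adjoin_two {d : ℚ} (hd : 0 < d) {x : K} (hx : x * x = -(d : K)) :
    finrank ℚ (IntermediateField.adjoin ℚ {x}) = 2 := by
  have hint : IsIntegral ℚ x := Algebra.IsIntegral.isIntegral x
  rw [IntermediateField.adjoin.finrank hint]
  have h1 : (Polynomial.X ^ 2 + Polynomial.C d : Polynomial ℚ).natDegree = 2 := by
    rw [Polynomial.natDegree_add_C, Polynomial.natDegree_X_pow]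
  have hm : (Polynomial.X ^ 2 + Polynomial.C d : Polynomial ℚ).Monic :=
    Polynomial.monic_X_pow_add_C d two_ne_zero
  have hirr : Irreducible (Polynomial.X ^ 2 + Polynomial.C d : Polynomial ℚ) := by
    refine Polynomial.irreducible_of_degree_le_three_of_not_isRoot ?_ ?_
    · rw [h1]
      decide
    · intro q hq
      rw [Polynomial.IsRoot.def, Polynomial.eval_add, Polynomial.eval_pow, Polynomial.eval_X,
        Polynomial.eval_C] at hq
      nlinarith [sq_nonneg q]
  have h2 := minpoly.eq_of_irreducible_of_monic hirr (x := x) (by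
    rw [map_add, map_pow, Polynomial.aeval_X, Polynomial.aeval_C, sq, hx, eq_ratCast]
    ring) hm
  rw [← h2, h1]

/-- number fields have finitely many subfields -/
theorem finite_sub (F : Type) [Field F] [NumberField F] : Finite (IntermediateField ℚ F) :=
  Field.finite_intermediateField_of_exists_primitive_element ℚ F
    (Field.exists_primitive_element ℚ F)

/-- A CM field with a CM type. -/
theorem exists_quad0 : ∃ (K : Type) (_ : Field K) (_ : NumberField K) (_ : IsCMField K)
    (Φ : Set (K →+* ℂ)), ∀ φ : K →+* ℂ, φ ∈ Φ ↔ ComplexEmbedding.conjugate φ ∉ Φ := by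
  have : NeZero ((4 : ℕ) : ℚ) := ⟨by norm_num⟩
  have : IsCyclotomicExtension {4} ℚ (CyclotomicField 4 ℚ) :=
    CyclotomicField.isCyclotomicExtension 4 ℚ
  have : NumberField (CyclotomicField 4 ℚ) := IsCyclotomicExtension.numberField {4} ℚ _
  have hζ := IsCyclotomicExtension.zeta_spec 4 ℚ (CyclotomicField 4 ℚ)
  have h1 : finrank ℚ (CyclotomicField 4 ℚ) = 2 := by
    have h := IsCyclotomicExtension.finrank (n := 4) (CyclotomicField 4 ℚ) (Polynomial.cyclotomic.irreducible_rat (n := 4) (by norm_num))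
    rw [h]
    decide
  have h2 : (IsCyclotomicExtension.zeta 4 ℚ (CyclotomicField 4 ℚ)) * (IsCyclotomicExtension.zeta 4 ℚ (CyclotomicField 4 ℚ)) = -(((1 : ℚ)) : (CyclotomicField 4 ℚ)) := by
    have h3 : IsPrimitiveRoot ((IsCyclotomicExtension.zeta 4 ℚ (CyclotomicField 4 ℚ)) ^ 2) 2 := hζ.pow (by norm_num) (by norm_num)
    have h4 := h3.eq_neg_one_of_two_right
    rw [← sq, h4, Rat.cast_one]
  obtain ⟨Φ, hΦ⟩ := quad_cmtype one_pos h2
  exact ⟨_, inferInstance, inferInstance, quad_cm h1 one_pos h2, Φ, hΦ⟩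

end Pool.Agent.N49.HX
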