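import Mathlib
import Pool.Agent.N178.HX.StmE
import Pool.Agent.N49.HX.Quad

/-!
# A sufficiently large Galois CM field
-/

set_option linter.unusedSectionVars false

namespace Pool.Agent.N49.HX

open Module NumberField Pool.Agent.Y90 Pool.Agent.R915
open Pool.Agent.N830.HC (inj_of_simple hom_sub ext_per)

/-- An unbalanced square root of `-d` on a simple abelian variety is central. -/
theorem central {Y : AV} (hs : IsSimple Y) {d : ℚ} {h : Y.H →ₗ[ℚ] Y.H} {Ψ : Y.T →ₗ[ℂ] Y.T} {s : ℂ}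
    (hΨ : ∀ v, Ψ (Y.per v) = Y.per (h v)) (hh : ∀ w, h (h w) = -(d • w))
    (hne : finrank ℂ (LinearMap.ker (Ψ - s • LinearMap.id)) ≠
      finrank ℂ (LinearMap.ker (Ψ + s • LinearMap.id))) {g : Y.H →ₗ[ℚ] Y.H} (hg : IsHom Y Y g) :
    h.comp g = g.comp h := by
  by_contra hcon
  have hhom : IsHom Y Y h := ⟨Ψ, hΨ⟩
  have hk : IsHom Y Y (h.comp g - g.comp h) :=
    hom_sub (IsHom.comp' hhom hg) (IsHom.comp' hg hhom)
  have hk0 : h.comp g - g.comp h ≠ 0 := sub_ne_zero.2 hcon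
  have hinj := inj_of_simple hs hk hk0
  obtain ⟨Γ, hΓ⟩ := hk
  have hsurj : Function.Surjective (h.comp g - g.comp h) :=
    LinearMap.injective_iff_surjective.1 hinj
  have hΓs : Function.Surjective Γ := tan_surj hΓ hsurj
  have hΓi : Function.Injective Γ := LinearMap.injective_iff_surjective.2 hΓs
  have hanti : ∀ v, h ((h.comp g - g.comp h) v) = -((h.comp g - g.comp h) (h v)) := by
    intro v
    simp only [LinearMap.sub_apply, LinearMap.comp_apply, map_sub, hh, map_neg, map_smul]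
    abel
  have hant : ∀ x, Ψ (Γ x) = -Γ (Ψ x) := by
    have h1 : (Ψ.comp Γ).restrictScalars ℝ = (-(Γ.comp Ψ)).restrictScalars ℝ := by
      refine ext_per Y fun v => ?_
      rw [LinearMap.restrictScalars_apply, LinearMap.restrictScalars_apply, LinearMap.neg_apply,
        LinearMap.comp_apply, LinearMap.comp_apply, hΓ, hΨ, hΨ, hΓ, hanti, map_neg]
    intro x
    exact LinearMap.congr_fun h1 x
  let E : Y.T ≃ₗ[ℂ] Y.T := LinearEquiv.ofBijective Γ ⟨hΓi, hΓs⟩
  have hE : ∀ x, E x = Γ x := fun x => rfl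
  have h2 : ∀ t : ℂ, finrank ℂ (LinearMap.ker (Ψ - t • LinearMap.id)) ≤
      finrank ℂ (LinearMap.ker (Ψ - (-t) • LinearMap.id)) := by
    intro t
    rw [← LinearEquiv.finrank_map_eq E (LinearMap.ker (Ψ - t • LinearMap.id))]
    refine Submodule.finrank_mono ?_
    rintro _ ⟨x, hx, rfl⟩
    have hx' : Ψ x = t • x := by
      have h3 := LinearMap.mem_ker.1 hx
      rw [LinearMap.sub_apply, LinearMap.smul_apply, LinearMap.id_apply, sub_eq_zero] at h3
      exact h3
    rw [LinearMap.mem_ker, LinearMap.sub_apply, LinearMap.smul_apply, LinearMap.id_apply,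
      sub_eq_zero]
    change Ψ (Γ x) = (-t) • Γ x
    rw [hant, hx', map_smul, neg_smul]
  have h3 : Ψ + s • LinearMap.id = Ψ - (-s) • LinearMap.id := by
    rw [neg_smul, sub_neg_eq_add]
  refine hne (le_antisymm ?_ ?_)
  · rw [h3]
    exact h2 s
  · rw [h3]
    have h4 := h2 (-s)
    rw [neg_neg] at h4
    exact h4

theorem centre_aux (Y : AV) (K : Type) [Field K] [CharZero K] (ρ : K →+* Module.End ℚ Y.H)
    (hs : IsSimple Y) :
    ∃ (_ : NumberField K), Function.Injective ρ := by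
  obtain ⟨y, hy⟩ := hs.1
  have : Nontrivial Y.H := ⟨⟨y, 0, hy⟩⟩
  have : Nontrivial (Module.End ℚ Y.H) := inferInstance
  have hinj : Function.Injective ρ := ρ.injective
  let f : K →+ Module.End ℚ Y.H := ρ.toAddMonoidHom
  let F : K →ₗ[ℚ] Module.End ℚ Y.H :=
    { toFun := f
      map_add' := map_add f
      map_smul' := fun c x => map_rat_smul f c x }
  have hfd : FiniteDimensional ℚ K := FiniteDimensional.of_injective F hinj
  exact ⟨⟨⟩, hinj⟩

/-- The centre of the endomorphism algebra of a simple abelian variety. -/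
theorem exists_centre {Y : AV} (hs : IsSimple Y) :
    ∃ (K : Type) (_ : Field K) (_ : NumberField K) (ρ : K →+* Module.End ℚ Y.H),
      Function.Injective ρ ∧ ∀ g : Y.H →ₗ[ℚ] Y.H, IsHom Y Y g →
        (∀ g' : Y.H →ₗ[ℚ] Y.H, IsHom Y Y g' → g.comp g' = g'.comp g) → ∃ x : K, ρ x = g := by
  classical
  obtain ⟨y, hy⟩ := hs.1
  let A : Subalgebra ℚ (Module.End ℚ Y.H) :=
    { carrier := {g | IsHom Y Y g ∧ ∀ g' : Module.End ℚ Y.H, IsHom Y Y g' → g * g' = g' * g}
      mul_mem' := by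
        rintro a b ⟨ha, ha'⟩ ⟨hb, hb'⟩
        refine ⟨IsHom.comp' ha hb, fun g' hg' => ?_⟩
        rw [mul_assoc, hb' g' hg', ← mul_assoc, ha' g' hg', mul_assoc]
      add_mem' := by
        rintro a b ⟨⟨Ψ, hΨ⟩, ha'⟩ ⟨⟨Φ, hΦ⟩, hb'⟩
        refine ⟨⟨Ψ + Φ, fun v => ?_⟩, fun g' hg' => ?_⟩
        · rw [LinearMap.add_apply, LinearMap.add_apply, map_add, hΨ, hΦ]
        · rw [add_mul, mul_add, ha' g' hg', hb' g' hg']
      algebraMap_mem' := by
        intro q
        refine ⟨⟨(q : ℂ) • LinearMap.id, fun v => ?_⟩, fun g' hg' => ?_⟩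
        · rw [Module.algebraMap_end_apply, LinearMap.smul_apply, LinearMap.id_apply]
          have h1 : Y.per (q • v) = (q : ℂ) • Y.per v := by
            have h2 := map_ratCast_smul Y.per ℚ ℂ q v
            rwa [Rat.cast_id] at h2
          rw [h1]
        · exact Algebra.commutes q g' }
  have hmem : ∀ a, a ∈ A ↔ IsHom Y Y a ∧ ∀ g' : Module.End ℚ Y.H, IsHom Y Y g' → a * g' = g' * a :=
    fun a => Iff.rfl
  have hfdA : FiniteDimensional ℚ A :=
    inferInstanceAs (FiniteDimensional ℚ (Subalgebra.toSubmodule A))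
  let iR : CommRing A := { (inferInstance : Ring A) with
    mul_comm := fun a b => Subtype.ext (((hmem _).1 a.2).2 b.1 ((hmem _).1 b.2).1) }
  have hnt : Nontrivial A := by
    refine ⟨⟨0, 1, fun h0 => ?_⟩⟩
    have h1 : (0 : Module.End ℚ Y.H) y = (1 : Module.End ℚ Y.H) y :=
      congrArg (fun c : A => (c : Module.End ℚ Y.H) y) h0
    exact hy h1.symm
  have hnz : NoZeroDivisors A := by
    refine ⟨fun {a b} hab => ?_⟩
    by_contra hcon
    push Not at hcon
    have h1 : (a : Module.End ℚ Y.H) ≠ 0 := fun h2 => hcon.1 (Subtype.ext h2)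
    have h2 : (b : Module.End ℚ Y.H) ≠ 0 := fun h2 => hcon.2 (Subtype.ext h2)
    have h3 := inj_of_simple hs ((hmem _).1 a.2).1 h1
    refine h2 (LinearMap.ext fun v => h3 ?_)
    rw [LinearMap.zero_apply, map_zero]
    exact congrArg (fun c : A => (c : Module.End ℚ Y.H) v) hab
  have hdom : IsDomain A := NoZeroDivisors.to_isDomain A
  let iF : Field A := fieldOfFiniteDimensional ℚ A
  have hcz : CharZero A := algebraRat.charZero A
  let ρ : A →+* Module.End ℚ Y.H :=
    { toFun := Subtype.val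
      map_one' := rfl
      map_mul' := fun _ _ => rfl
      map_zero' := rfl
      map_add' := fun _ _ => rfl }
  obtain ⟨hN, hinj⟩ := centre_aux Y A ρ hs
  exact ⟨A, iF, hN, ρ, hinj, fun g hg hg' => ⟨⟨g, (hmem _).2 ⟨hg, hg'⟩⟩, rfl⟩⟩

end Pool.Agent.N49.HX

namespace Pool.Agent.N49.HX

open Matrix Module NumberField Pool.Agent.Y90 Pool.Agent.R915
open Pool.Agent.W437.HC Pool.Agent.W437.HD Pool.Agent.TH504.CB
open Pool.Agent.W548.Odd hiding cv
open Pool.Agent.W437.HP (cK cK_mul cK_one cK_sum)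
open Pool.Agent.N830.HC (inj_of_simple hom_sub ext_per act act_apply e_act exists_type cm_of_sub
  HasCMultIn)
open Pool.Agent.W547.KB (CMPair CMAV)

/-- The simple factors of an abelian variety, up to isogeny. -/
theorem exists_reps (A : AV) : ∃ (ι : Type) (_ : Fintype ι) (R : ι → AV),
    (∀ i, IsSimple (R i)) ∧ ∀ Y, IsFactor Y A → ∃ i, ∃ e : Y.H ≃ₗ[ℚ] (R i).H,
      IsHom Y (R i) e.toLinearMap ∧ IsHom (R i) Y e.symm.toLinearMap := by
  obtain ⟨G, Z, h, A', hC'⟩ := exists_ppav (AV.isAV A)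
  obtain ⟨ι, _, _, g, Z', E, F, h1, h2, h3, h4, h5, h6, h7, h8⟩ :=
    decomposes G G Z le_rfl h.symm h.pos
  have hfac : ∀ i, Fac Z (Z' i) (E i) (F i) := by
    intro i
    refine ⟨h4 i, de_of_JR (h7 i), fd_of_JR ?_⟩
    have h12 : JR Z = ∑ j, JR Z * cK ℝ (E j) * cK ℝ (F j) := by
      have h13 : JR Z = JR Z * cK ℝ (∑ i, E i * F i) := by rw [h6, cK_one, Matrix.mul_one]
      conv_lhs => rw [h13, cK_sum, Matrix.mul_sum]
      refine Finset.sum_congr rfl fun j _ => ?_
      rw [cK_mul, Matrix.mul_assoc]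
    rw [h12, Matrix.mul_sum, Finset.sum_eq_single i]
    · rw [h7 i, ← Matrix.mul_assoc, ← Matrix.mul_assoc, ← cK_mul, h4 i, cK_one, Matrix.one_mul]
    · intro j _ hj
      rw [h7 j, ← Matrix.mul_assoc, ← Matrix.mul_assoc, ← cK_mul, h5 i j hj.symm,
        Pool.Agent.W437.HP.cK_zero, Matrix.zero_mul, Matrix.zero_mul]
    · intro hi'
      exact absurd (Finset.mem_univ i) hi'
  have hPM : ∀ i, PM (Z' i) := fun i => ⟨h1 i, h2 i⟩
  have hsim : ∀ i, IsSimple (AVZ (hPM i)) := fun i => simple_of (g i) (hPM i) (h3 i) (h8 i)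
  refine ⟨ι, inferInstance, fun i => AVZ (hPM i), hsim, fun Y hY => ?_⟩
  obtain ⟨hYs, j, hj, hinj⟩ := hY
  obtain ⟨Ψ₂, h₂⟩ := hC'.hom h.cht (R := 1) (by rw [cK_one, Matrix.one_mul, Matrix.mul_one])
  have e₂ : ∀ v, Ψ₂ (A.per v) = perOne Z (A' v) := fun v => by
    have h3 := h₂ (A' v)
    have h4 : (A.per.comp A'.symm.toLinearMap.toAddMonoidHom) (A' v) = A.per v := by
      change A.per (A'.symm (A' v)) = A.per v
      rw [LinearEquiv.symm_apply_apply]
    rwa [h4, one_mulVec] at h3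
  have hA' : IsHom A (AVZ h) A'.toLinearMap := ⟨Ψ₂, e₂⟩
  have hF : ∀ i, IsHom (AVZ h) (AVZ (hPM i)) (Matrix.mulVecLin (F i)) := by
    intro i
    obtain ⟨Ψ₁, h₁⟩ := h.cht.hom (hPM i).cht (R := F i)
      (by rw [DJ_JR, DJ_JR]; exact (hfac i).fd)
    exact ⟨Ψ₁, fun v => h₁ v⟩
  obtain ⟨i, hi⟩ : ∃ i, (Matrix.mulVecLin (F i)).comp (A'.toLinearMap.comp j) ≠ 0 := by
    by_contra hcon
    push Not at hcon
    obtain ⟨y, hy⟩ := hYs.1
    refine hy (hinj ?_)
    rw [map_zero]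
    apply A'.injective
    rw [map_zero]
    have e1 : (∑ i, E i * F i) *ᵥ (A' (j y)) = 0 := by
      rw [sum_mulVec]
      refine Finset.sum_eq_zero fun i _ => ?_
      rw [← mulVec_mulVec]
      have e2 : F i *ᵥ (A' (j y)) = 0 := congrArg (fun φ => φ y) (hcon i)
      rw [e2, mulVec_zero]
    rwa [h6, one_mulVec] at e1
  obtain ⟨e, he⟩ := iso_of_simple hYs (hsim i) (IsHom.comp' (hF i) (IsHom.comp' hA' hj)) hi
  exact ⟨i, e, he⟩

/-- Simple abelian varieties with a homomorphism to an abelian variety of CM type. -/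
theorem in_of_type {Y : AV} {P : CMPair} (h : IsOfType Y P) {Y' : AV} (hs : IsSimple Y')
    (i : Y'.H →ₗ[ℚ] Y.H) (hi : IsHom Y' Y i) (hinj : Function.Injective i) :
    HasCMultIn Y' P.E := by
  obtain ⟨e, Ψ, hΨ⟩ := h
  have hhom : ∀ a : P.E, IsHom Y Y (act Y P.E e a) := by
    intro a
    let M : (P.Φ → ℂ) →ₗ[ℂ] (P.Φ → ℂ) :=
      { toFun := fun u φ => φ.1 a * u φ
        map_add' := fun u v => by
          funext φ
          exact mul_add _ _ _
        map_smul' := fun c u => by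
          funext φ
          exact mul_left_comm _ _ _ }
    refine ⟨Ψ.symm.toLinearMap.comp (M.comp Ψ.toLinearMap), fun v => ?_⟩
    change Ψ.symm (M (Ψ (Y.per v))) = _
    rw [LinearEquiv.symm_apply_eq]
    funext φ
    change φ.1 a * Ψ (Y.per v) φ = _
    rw [hΨ, hΨ, e_act, map_mul]
  exact cm_of_sub Y P.E e hhom Y' hs i hi hinj

/-- The imaginary quadratic fields with different multiplicities on a simple abelian variety. -/
theorem unb_fields {Y : AV} (hs : IsSimple Y) : ∃ (J : Type) (_ : Fintype J) (P : J → CMPair),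
    ∀ (L : Type) [Field L], (∀ j, Nonempty ((P j).E →+* L)) →
      ∀ d, Unbalanced Y d → ∃ s : L, s * s = -(d : L) := by
  classical
  obtain ⟨F, _, _, ρ, hρ, hall⟩ := exists_centre hs
  let Q : IntermediateField ℚ F → Prop := fun K =>
    finrank ℚ K = 2 ∧ ∃ (d : ℚ) (a : K), 0 < d ∧ a * a = -(d : K)
  have : Finite (IntermediateField ℚ F) := finite_sub F
  have : Finite {K : IntermediateField ℚ F // Q K} := inferInstance
  have : Fintype {K : IntermediateField ℚ F // Q K} := Fintype.ofFinite _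
  have hex : ∀ K : {K : IntermediateField ℚ F // Q K}, ∃ P : CMPair, Nonempty (K.1 →+* P.E) := by
    rintro ⟨K, hK, d, a, hd, ha⟩
    obtain ⟨Φ, hΦ⟩ := quad_cmtype hd ha
    have := quad_cm hK hd ha
    exact ⟨⟨K, Φ, hΦ⟩, ⟨RingHom.id K⟩⟩
  choose P hP using hex
  refine ⟨{K : IntermediateField ℚ F // Q K}, inferInstance, P, fun L _ hL d hd => ?_⟩
  obtain ⟨hd0, h, Ψ, s, h1, h2, -, h4⟩ := hd
  obtain ⟨x, hx⟩ := hall h ⟨Ψ, h1⟩ fun g' hg' => central hs h1 h2 h4 hg'
  have hxx : x * x = -(d : F) := by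
    apply hρ
    rw [map_mul, hx, map_neg]
    refine LinearMap.ext fun v => ?_
    rw [LinearMap.neg_apply, Module.End.mul_apply, h2]
    have h5 : ρ (d : F) = (algebraMap ℚ (Module.End ℚ Y.H)) d := by
      have h6 : ρ.comp (algebraMap ℚ F) = algebraMap ℚ (Module.End ℚ Y.H) := Subsingleton.elim _ _
      rw [← h6, RingHom.comp_apply, eq_ratCast]
    rw [h5, Module.algebraMap_end_apply]
  let K : IntermediateField ℚ F := IntermediateField.adjoin ℚ {x}
  have hxK : x ∈ K := IntermediateField.mem_adjoin_simple_self ℚ x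
  let a : K := ⟨x, hxK⟩
  have ha : a * a = -(d : K) := by
    apply Subtype.ext
    change x * x = _
    rw [hxx]
    simp
  obtain ⟨f⟩ := hP ⟨K, finrank_adjoin_two hd0 hxx, d, a, hd0, ha⟩
  obtain ⟨f'⟩ := hL ⟨K, finrank_adjoin_two hd0 hxx, d, a, hd0, ha⟩
  refine ⟨f' (f a), ?_⟩
  have h6 := congrArg (fun z => f' (f z)) ha
  beta_reduce at h6
  rw [map_mul, map_mul, map_neg, map_neg, map_ratCast, map_ratCast] at h6
  exact h6

/-- The fields of a simple abelian variety. -/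
theorem simple_fields {Y : AV} (hs : IsSimple Y) : ∃ (J : Type) (_ : Fintype J) (P : J → CMPair),
    ∀ (L : Type) [Field L], (∀ j, Nonempty ((P j).E →+* L)) →
      (HasCMult Y → ∀ Y', IsSimple Y' → ∀ i : Y'.H →ₗ[ℚ] Y.H, IsHom Y' Y i →
        Function.Injective i → HasCMultIn Y' L) ∧
      ∀ d, Unbalanced Y d → ∃ s : L, s * s = -(d : L) := by
  obtain ⟨J, _, P, hP⟩ := unb_fields hs
  by_cases hcm : HasCMult Y
  · obtain ⟨P₀, h₀⟩ := exists_type Y hs hcm
    refine ⟨Unit ⊕ J, inferInstance, Sum.elim (fun _ => P₀) P, fun L _ hL =>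
      ⟨fun _ Y' hs' i hi hinj => ?_, hP L fun j => hL (Sum.inr j)⟩⟩
    obtain ⟨f⟩ := hL (Sum.inl ())
    exact (in_of_type h₀ hs' i hi hinj).map f
  · exact ⟨J, inferInstance, P, fun L _ hL => ⟨fun h => absurd h hcm, hP L hL⟩⟩

/-- **A sufficiently large Galois CM field.** -/
theorem t_EXL : Pool.Agent.N178.HX.S_EXL := by
  classical
  intro X hX hX'
  obtain ⟨ι, _, R, hR, hfac⟩ := exists_reps X
  have hJ := fun i => simple_fields (hR i)
  choose J hJf P hP using hJ
  obtain ⟨K₀, _, _, _, Φ₀, hΦ₀⟩ := exists_quad0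
  let C : CMAV := @CMAV.mk (Option (Σ i, J i)) inferInstance
    (fun o => o.elim ⟨K₀, Φ₀, hΦ₀⟩ fun s => P s.1 s.2)
  have : Nonempty C.I := ⟨none⟩
  obtain ⟨L, hL1, hL2, hL3, hL4, j, hj⟩ := Pool.Agent.W547.KB.exists_cm C
  have hL : ∀ i k, Nonempty ((P i k).E →+* L) := by
    intro i k
    obtain ⟨φ, -⟩ := hj (some ⟨i, k⟩) (Classical.choice inferInstance)
    exact ⟨φ⟩
  refine ⟨L, hL1, hL2, hL3, hL4, fun Y hY => ?_⟩
  obtain ⟨i, e, he, he'⟩ := hfac Y hY
  obtain ⟨h1, h2⟩ := hP i L (hL i)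
  by_cases hcm : HasCMult Y
  · refine Or.inl ⟨(), h1 (hcm.iso e.symm he' (by rw [LinearEquiv.symm_symm]; exact he)) Y hY.1
      e.toLinearMap he e.injective⟩
  · refine Or.inr ⟨hcm, ?_, fun d hd => ⟨fun h8 => hX' Y hY hcm h8 d hd, (), ?_⟩⟩
    · rcases hX Y hY with k | k | k
      · exact Or.inl k
      · exact absurd k hcm
      · exact Or.inr k
    · exact h2 d (hd.iso e.symm he')

end Pool.Agent.N49.HX
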